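import Pool.Agent.W732.Cor.Stm2
import Pool.Agent.H326R3.CB19

/-!
# Project COR of helper732, part LOC: uniform local solutions via characters of sequences
-/

set_option autoImplicit false

open Metric Set Filter Topology

namespace Pool.Agent.W902.Cor

open Pool.Agent.H326R3.CB
open Pool.Agent.H720R2.Cor (Ball IsAutomorphism)

/-! ### Phases -/

/-- the dual of a nonzero vector with respect to the `ℓ¹` norm -/
noncomputable def dual {ι : Type*} [Fintype ι] (c : ι → ℂ) (i : ι) : ℂ :=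
  starRingEnd ℂ (c i) / (‖c i‖ : ℂ) / ((∑ j, ‖c j‖ : ℝ) : ℂ)

theorem dual_sum {ι : Type*} [Fintype ι] (c : ι → ℂ) {η : ℝ} (hη : 0 < η)
    (h : η ≤ ∑ j, ‖c j‖) : ∑ i, c i * dual c i = 1 := by
  have hS : (0 : ℝ) < ∑ j, ‖c j‖ := lt_of_lt_of_le hη h
  have hS' : ((∑ j, ‖c j‖ : ℝ) : ℂ) ≠ 0 := by exact_mod_cast hS.ne'
  have h1 : ∀ i, c i * dual c i = (‖c i‖ : ℂ) / ((∑ j, ‖c j‖ : ℝ) : ℂ) := by
    intro i
    unfold dual
    by_cases hi : c i = 0
    · simp [hi]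
    · have h2 : (‖c i‖ : ℂ) ≠ 0 := by exact_mod_cast (norm_ne_zero_iff.2 hi)
      have h3 : c i * starRingEnd ℂ (c i) = (‖c i‖ : ℂ) * ‖c i‖ := by
        rw [Complex.mul_conj, Complex.normSq_eq_norm_sq]
        push_cast; ring
      rw [← mul_div_assoc, ← mul_div_assoc, h3, mul_div_assoc, div_self h2, mul_one]
  rw [Finset.sum_congr rfl fun i _ => h1 i, ← Finset.sum_div]
  rw [← Complex.ofReal_sum, div_self hS']

theorem dual_le {ι : Type*} [Fintype ι] (c : ι → ℂ) {η : ℝ} (hη : 0 < η)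
    (h : η ≤ ∑ j, ‖c j‖) (i : ι) : ‖dual c i‖ ≤ 1 / η := by
  have hS : (0 : ℝ) < ∑ j, ‖c j‖ := lt_of_lt_of_le hη h
  unfold dual
  rw [norm_div, norm_div, Complex.norm_real, Complex.norm_real, RCLike.norm_conj, norm_norm,
    Real.norm_of_nonneg hS.le]
  have h1 : ‖c i‖ / ‖c i‖ ≤ 1 := div_self_le_one _
  calc ‖c i‖ / ‖c i‖ / ∑ j, ‖c j‖ ≤ 1 / ∑ j, ‖c j‖ := by gcongr
    _ ≤ 1 / η := by gcongr

/-! ### Characters of sequences -/

section Char

variable {m : ℕ}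

/-- sequences of constants -/
noncomputable def con (c : ℕ → ℂ) {C : ℝ} (hC : ∀ k, ‖c k‖ ≤ C) : Hs m :=
  mks (f := fun k _ => c k) (fun _ => differentiableOn_const _) (C := C) (fun k _ _ => hC k)

theorem Hs.mul_apply (F G : Hs m) (x : ℕ × Bt m) : (F * G).1 x = F.1 x * G.1 x := rfl

theorem Hs.add_apply (F G : Hs m) (x : ℕ × Bt m) : (F + G).1 x = F.1 x + G.1 x := rfl

theorem Hs.sub_apply (F G : Hs m) (x : ℕ × Bt m) : (F - G).1 x = F.1 x - G.1 x := rfl

theorem Hs.one_apply (x : ℕ × Bt m) : (1 : Hs m).1 x = 1 := rfl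

theorem Hs.pow_apply (F : Hs m) (k : ℕ) (x : ℕ × Bt m) : (F ^ k).1 x = F.1 x ^ k := by
  induction k with
  | zero => simp
  | succ k ih => rw [pow_succ, Hs.mul_apply, ih, pow_succ]

/-- domination localises -/
theorem dom_s (q : V m) (hq : ‖q‖ = 1) (χ : Hs m →ₐ[ℂ] ℂ) (hχq : χ (cs (Lw q)) = 1)
    (hχ : ∀ (G : Hs m) (C : ℝ), (∀ x, ‖G.1 x‖ ≤ C) → ‖χ G‖ ≤ C) {r : ℝ} (hr : 0 < r)
    (G : Hs m) (C : ℝ) (hC0 : 0 ≤ C)
    (hG : ∀ x : ℕ × Bt m, ‖(x.2 : V m) - q‖ < r → ‖G.1 x‖ ≤ C) : ‖χ G‖ ≤ C := by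
  obtain ⟨P, hP⟩ : ∃ P : Hs m, P = (1 + cs (Lw q)) * Cs (1 / 2) := ⟨_, rfl⟩
  have hPχ : χ P = 1 := by
    have h1 : χ (Cs (1 / 2) : Hs m) = 1 / 2 := χ.commutes _
    rw [hP, map_mul, map_add, map_one, hχq, h1]
    norm_num
  have hPz : ∀ x : ℕ × Bt m, P.1 x = (1 + inner ℂ q (x.2 : V m)) * (1 / 2) := by
    intro x; rw [hP]; rfl
  have hin : ∀ z : Bt m, ‖(inner ℂ q (z : V m) : ℂ)‖ ≤ 1 := by
    intro z
    have h1 : ‖(z : V m)‖ < 1 := mem_ball_zero_iff.1 z.2
    calc ‖(inner ℂ q (z : V m) : ℂ)‖ ≤ ‖q‖ * ‖(z : V m)‖ := norm_inner_le_norm _ _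
      _ ≤ 1 := by rw [hq, one_mul]; exact h1.le
  have hP1 : ∀ x : ℕ × Bt m, ‖P.1 x‖ ^ 2 ≤ (2 + 2 * (inner ℂ q (x.2 : V m) : ℂ).re) / 4 := by
    intro x
    rw [hPz, norm_mul, mul_pow]
    have h1 : ‖1 + (inner ℂ q (x.2 : V m) : ℂ)‖ ^ 2 = 1 + 2 * (inner ℂ q (x.2 : V m) : ℂ).re +
        ‖(inner ℂ q (x.2 : V m) : ℂ)‖ ^ 2 := by
      rw [← Complex.normSq_eq_norm_sq, ← Complex.normSq_eq_norm_sq, Complex.normSq_apply,
        Complex.normSq_apply]
      simp only [Complex.add_re, Complex.one_re, Complex.add_im, Complex.one_im]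
      ring
    rw [h1]
    have h2 := hin x.2
    have h3 : ‖(1 / 2 : ℂ)‖ = 1 / 2 := by norm_num
    rw [h3]
    nlinarith [norm_nonneg (inner ℂ q (x.2 : V m) : ℂ)]
  have hPle : ∀ x : ℕ × Bt m, ‖P.1 x‖ ≤ 1 := by
    intro x
    have h1 := hP1 x
    have h2 := (Complex.re_le_norm (inner ℂ q (x.2 : V m) : ℂ)).trans (hin x.2)
    nlinarith [norm_nonneg (P.1 x)]
  obtain ⟨ρ, hρ⟩ : ∃ ρ : ℝ, ρ = max (1 / 2) (1 - r ^ 2 / 8) := ⟨_, rfl⟩
  have hρ0 : 0 < ρ := by rw [hρ]; exact lt_max_of_lt_left (by norm_num)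
  have hρ1 : ρ < 1 := by
    rw [hρ]; exact max_lt (by norm_num) (by nlinarith [pow_pos hr 2])
  have hPfar : ∀ x : ℕ × Bt m, r ≤ ‖(x.2 : V m) - q‖ → ‖P.1 x‖ ≤ ρ := by
    intro x hx
    have h1 := hP1 x
    have h2 := inner_re_le q x.2 hq (mem_ball_zero_iff.1 x.2.2)
    have h3 : r ^ 2 ≤ ‖(x.2 : V m) - q‖ ^ 2 := pow_le_pow_left₀ hr.le hx 2
    have h4 : ‖P.1 x‖ ^ 2 ≤ 1 - r ^ 2 / 4 := by linarith
    have h5 : 1 - r ^ 2 / 8 ≤ ρ := by rw [hρ]; exact le_max_right _ _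
    by_contra hcon
    push Not at hcon
    have h6 : 1 - r ^ 2 / 4 ≤ (1 - r ^ 2 / 8) ^ 2 := by nlinarith [sq_nonneg (r ^ 2)]
    have h7 : ρ ^ 2 < ‖P.1 x‖ ^ 2 := by nlinarith
    rcases le_or_gt 0 (1 - r ^ 2 / 8) with h8 | h8
    · have h9 : (1 - r ^ 2 / 8) ^ 2 ≤ ρ ^ 2 := pow_le_pow_left₀ h8 h5 2
      linarith
    · nlinarith [sq_nonneg (‖P.1 x‖)]
  refine le_of_forall_pos_le_add (fun ε hε => ?_)
  obtain ⟨k, hk⟩ : ∃ k : ℕ, ‖G‖ * ρ ^ k < ε := by
    have h1 : Tendsto (fun k : ℕ => ‖G‖ * ρ ^ k) atTop (𝓝 (‖G‖ * 0)) :=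
      (tendsto_pow_atTop_nhds_zero_of_lt_one hρ0.le hρ1).const_mul _
    rw [mul_zero] at h1
    exact (h1.eventually_lt_const hε).exists
  have h1 : χ G = χ (G * P ^ k) := by rw [map_mul, map_pow, hPχ, one_pow, mul_one]
  rw [h1]
  refine hχ _ _ (fun x => ?_)
  rw [Hs.mul_apply, Hs.pow_apply, norm_mul, norm_pow]
  rcases lt_or_ge ‖(x.2 : V m) - q‖ r with h2 | h2
  · calc ‖G.1 x‖ * ‖P.1 x‖ ^ k ≤ C * 1 :=
          mul_le_mul (hG x h2) (pow_le_one₀ (norm_nonneg _) (hPle x)) (by positivity) hC0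
      _ ≤ C + ε := by linarith
  · calc ‖G.1 x‖ * ‖P.1 x‖ ^ k ≤ ‖G‖ * ρ ^ k :=
          mul_le_mul (G.1.norm_coe_le_norm x) (pow_le_pow_left₀ (norm_nonneg _) (hPfar x h2) k)
            (by positivity) (norm_nonneg _)
      _ ≤ C + ε := by linarith

/-- over an interior point a character only sees the values at the point -/
theorem char_int (χ : Hs m →ₐ[ℂ] ℂ) (q : V m) (hq : ‖q‖ < 1)
    (hχq : ∀ a : V m, χ (cs (Lw a)) = inner ℂ a q) (F : Hs m) {C : ℝ}
    (hF : ∀ x, ‖F.1 x‖ ≤ C) :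
    χ F = χ (con (fun k => F.1 (k, ⟨q, mem_ball_zero_iff.2 hq⟩)) (fun k => hF _)) := by
  choose f hf hfF using F.2
  have hfb : ∀ k, ∀ z ∈ ball (0 : V m) 1, ‖f k z‖ ≤ C := by
    intro k z hz
    have := hF (k, ⟨z, hz⟩)
    rw [show F.1 (k, ⟨z, hz⟩) = f k z from hfF k ⟨z, hz⟩] at this
    exact this
  set Γ : Fin m → Hs m := fun i => mks (f := fun k => gam (f k) q (EuclideanSpace.single i (1:ℂ)))
    (fun k => gam_diff (hf k) (EuclideanSpace.single i (1:ℂ)) hq)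
    (C := 44 * C / (1 - ‖q‖) ^ 2)
    (fun k _ hz => gam_bd (hf k) (hfb k) (by simp) (by simpa using hz) hq) with hΓ
  have h1 : F = con (fun k => F.1 (k, ⟨q, mem_ball_zero_iff.2 hq⟩)) (fun k => hF _) +
      ∑ i, (cs (Lw (EuclideanSpace.single i (1:ℂ))) - Cs (q i)) * Γ i := by
    apply Hs.ext
    rintro ⟨k, z⟩
    have hz := z.2
    rw [mem_ball_zero_iff] at hz
    have hg := gleason (hf k) hq hz
    rw [Hs.add_apply, Hs.sum_apply]
    have h2 : ∀ i, ((cs (Lw (EuclideanSpace.single i (1:ℂ))) - Cs (q i)) * Γ i).1 (k, z) =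
        ((z : V m) i - q i) * gam (f k) q (EuclideanSpace.single i (1:ℂ)) z := by
      intro i
      rw [Hs.mul_apply, Hs.sub_apply]
      have h4 : (cs (Lw (EuclideanSpace.single i (1:ℂ))) : Hs m).1 (k, z) =
        (Lw (EuclideanSpace.single i (1:ℂ)) : Hi m).1 z := rfl
      rw [h4, Lw_single_apply]
      rfl
    rw [Finset.sum_congr rfl (fun i _ => h2 i), ← hg]
    have h3 : (con (fun k => F.1 (k, ⟨q, mem_ball_zero_iff.2 hq⟩)) (fun k => hF _) : Hs m).1
        (k, z) = F.1 (k, ⟨q, mem_ball_zero_iff.2 hq⟩) := rfl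
    rw [h3, show F.1 (k, ⟨q, mem_ball_zero_iff.2 hq⟩) = f k q from hfF k _,
      show F.1 (k, z) = f k z from hfF k z]
    ring
  conv_lhs => rw [h1]
  rw [map_add, map_sum]
  have h3 : ∀ i, χ ((cs (Lw (EuclideanSpace.single i (1:ℂ))) - Cs (q i)) * Γ i) = 0 := by
    intro i
    have h4 : χ (Cs (q i) : Hs m) = q i := χ.commutes _
    rw [map_mul, map_sub, h4, hχq, EuclideanSpace.inner_single_left]
    simp
  rw [Finset.sum_eq_zero fun i _ => h3 i, add_zero]

end Char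

/-- no character kills the data -/
theorem no_char {n N : ℕ} (p : V (n + 1)) {δ : ℝ} (hδ : 0 < δ)
    (r : V (n + 1) → ℝ → ℝ) (hr : ∀ q ε, 0 < ε → 0 < r q ε)
    (F : ℕ → Fin N → V (n + 1) → ℂ) (G : ℕ → V (n + 1) → ℂ)
    (hF : ∀ k i, DifferentiableOn ℂ (F k i) (ball 0 1))
    (hG : ∀ k, DifferentiableOn ℂ (G k) (ball 0 1))
    (hFb : ∀ k i, ∀ z ∈ ball (0 : V (n + 1)) 1, ‖F k i z‖ ≤ 1)
    (hGb : ∀ k, ∀ z ∈ ball (0 : V (n + 1)) 1, ‖G k z‖ ≤ 1)
    (hc : ∀ k, ∀ z ∈ ball (0 : V (n + 1)) 1, δ ≤ ∑ i, ‖F k i z‖ + ‖G k z‖)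
    (heq : ∀ k i, ∀ q : V (n + 1), ‖q‖ = 1 → (inner ℂ p q : ℂ) = 0 → ∀ ε : ℝ, 0 < ε →
      ∀ z ∈ ball (0 : V (n + 1)) 1, ∀ w ∈ ball (0 : V (n + 1)) 1,
        ‖z - q‖ < r q ε → ‖w - q‖ < r q ε → ‖F k i z - F k i w‖ ≤ ε)
    (χ : Hs (n + 1) →ₐ[ℂ] ℂ)
    (hχ : ∀ (G : Hs (n + 1)) (C : ℝ), (∀ x, ‖G.1 x‖ ≤ C) → ‖χ G‖ ≤ C)
    (h1 : ∀ i, χ (mks (f := fun k => F k i) (fun k => hF k i) (C := 1)
      (fun k => hFb k i)) = 0)
    (h2 : χ (mks (f := G) hG (C := 1) hGb) = 0) (h3 : χ (cs (Lw p)) = 0) : False := by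
  classical
  obtain ⟨χc, hχc⟩ : ∃ χc : WeakDual.characterSpace ℂ (Hi (n + 1)), ∀ G, χc G = χ (cs G) :=
    ⟨WeakDual.CharacterSpace.equivAlgHom.symm (χ.comp cs), fun G => rfl⟩
  obtain ⟨q, hq⟩ : ∃ q, q = pt χc := ⟨_, rfl⟩
  have hLw : ∀ a : V (n + 1), χ (cs (Lw a)) = inner ℂ a q := fun a => by
    rw [← hχc, char_Lw, hq]
  have hpq : (inner ℂ p q : ℂ) = 0 := by rw [← hLw, h3]
  rcases (pt_norm χc).lt_or_eq with hlt | hq1
  · -- interior
    rw [← hq] at hlt
    have hqb : q ∈ ball (0 : V (n + 1)) 1 := mem_ball_zero_iff.2 hlt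
    set cc : Option (Fin N) → ℕ → ℂ := fun o k => o.elim (G k q) (fun i => F k i q) with hcc
    have hccb : ∀ o k, ‖cc o k‖ ≤ 1 := by
      intro o k
      rcases o with _ | i
      · exact hGb k q hqb
      · exact hFb k i q hqb
    have hccs : ∀ k, δ ≤ ∑ o, ‖cc o k‖ := by
      intro k
      rw [Fintype.sum_option, add_comm]
      exact hc k q hqb
    have hone : ∑ o, (con (cc o) (hccb o) : Hs (n + 1)) *
        con (fun k => dual (fun o => cc o k) o) (fun k => dual_le _ hδ (hccs k) o) = 1 := by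
      apply Hs.ext
      rintro ⟨k, z⟩
      rw [Hs.sum_apply]
      exact dual_sum (fun o => cc o k) hδ (hccs k)
    have h4 := congrArg χ hone
    rw [map_sum, map_one] at h4
    have h5 : ∀ o, χ (con (cc o) (hccb o) : Hs (n + 1)) = 0 := by
      intro o
      rcases o with _ | i
      · rw [← h2]
        exact (char_int χ q hlt hLw (mks (f := G) hG (C := 1) hGb)
          (fun x => hGb x.1 x.2 x.2.2)).symm
      · rw [← h1 i]
        exact (char_int χ q hlt hLw (mks (f := fun k => F k i) (fun k => hF k i) (C := 1)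
          (fun k => hFb k i)) (fun x => hFb x.1 i x.2 x.2.2)).symm
    rw [Finset.sum_eq_zero fun o _ => by rw [map_mul, h5, zero_mul]] at h4
    exact zero_ne_one h4
  · -- boundary
    rw [← hq] at hq1
    have hχq : χ (cs (Lw q)) = 1 := by
      rw [hLw, inner_self_eq_norm_sq_to_K, hq1]
      simp
    have hN1 : (0 : ℝ) < N + 1 := by positivity
    obtain ⟨ε, hε⟩ : ∃ ε : ℝ, ε = δ / (8 * (N + 1)) := ⟨_, rfl⟩
    have hε0 : 0 < ε := by rw [hε]; positivity
    have hNε : N * ε ≤ δ / 8 := by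
      rw [hε, mul_div_assoc', div_le_div_iff₀ (by positivity) (by norm_num)]
      nlinarith
    obtain ⟨ρ, hρ⟩ : ∃ ρ : ℝ, ρ = r q ε := ⟨_, rfl⟩
    have hρ0 : 0 < ρ := by rw [hρ]; exact hr q ε hε0
    -- a point near `q`
    obtain ⟨z₀, hz₀, hz₀q⟩ : ∃ z₀ ∈ ball (0 : V (n + 1)) 1, ‖z₀ - q‖ < ρ := by
      obtain ⟨t, ht⟩ : ∃ t : ℝ, t = min (ρ / 2) (1 / 2) := ⟨_, rfl⟩
      have ht0 : 0 < t := by rw [ht]; exact lt_min (by positivity) (by norm_num)
      have ht1 : t ≤ 1 / 2 := by rw [ht]; exact min_le_right _ _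
      have ht2 : t ≤ ρ / 2 := by rw [ht]; exact min_le_left _ _
      refine ⟨((1 - t : ℝ) : ℂ) • q, ?_, ?_⟩
      · rw [mem_ball_zero_iff, norm_smul, hq1, mul_one, Complex.norm_real,
          Real.norm_of_nonneg (by linarith)]
        linarith
      · have h4 : ((1 - t : ℝ) : ℂ) • q - q = ((-t : ℝ) : ℂ) • q := by
          push_cast
          module
        rw [h4, norm_smul, hq1, mul_one, Complex.norm_real, norm_neg, Real.norm_of_nonneg ht0.le]
        linarith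
    set c : Fin N → ℕ → ℂ := fun i k => F k i z₀ with hcdef
    have hcb : ∀ i k, ‖c i k‖ ≤ 1 := fun i k => hFb k i z₀ hz₀
    have hcF : ∀ i k, ∀ z ∈ ball (0 : V (n + 1)) 1, ‖z - q‖ < ρ → ‖F k i z - c i k‖ ≤ ε :=
      fun i k z hz hzq => heq k i q hq1 hpq ε hε0 z hz z₀ hz₀ (by rwa [← hρ]) (by rwa [← hρ])
    have hχc' : ∀ i, ‖χ (con (c i) (hcb i) : Hs (n + 1))‖ ≤ ε := by
      intro i
      have h4 : χ (con (c i) (hcb i) : Hs (n + 1)) =
          -χ (mks (f := fun k => F k i) (fun k => hF k i) (C := 1) (fun k => hFb k i) -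
            con (c i) (hcb i)) := by
        rw [map_sub, h1 i, zero_sub, neg_neg]
      rw [h4, norm_neg]
      refine dom_s q hq1 χ hχq hχ hρ0 _ ε hε0.le (fun x hx => ?_)
      exact hcF i x.1 x.2 x.2.2 hx
    -- the one variable problem
    obtain ⟨κ, hκ⟩ : ∃ κ : ℝ, κ = min (δ / 2) (ρ ^ 2 / 4) := ⟨_, rfl⟩
    have hκ0 : 0 < κ := by rw [hκ]; exact lt_min (by positivity) (by positivity)
    obtain ⟨C, hC0, hC⟩ := Pool.Agent.H720R2.HP.oneCoord 1 (δ := κ) hκ0
    obtain ⟨ψ, hψ, hψ0⟩ := unitary q hq1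
    have hw1 : ∀ v : V (n + 1), ‖v‖ < 1 → (inner ℂ q v : ℂ) ∈ ball (0:ℂ) 1 := by
      intro v hv
      rw [mem_ball_zero_iff]
      calc ‖(inner ℂ q v : ℂ)‖ ≤ ‖q‖ * ‖v‖ := norm_inner_le_norm _ _
        _ < 1 := by rw [hq1, one_mul]; exact hv
    have hmaps : MapsTo (ee (n + 1)).symm (Ball (n + 1)) (ball 0 1) := by
      intro z hz
      rw [mem_ball_zero_iff]
      exact (mem_Ball_iff z).1 hz
    have hmaps2 : MapsTo (ee (n + 1)) (ball 0 1) (Ball (n + 1)) := by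
      intro v hv
      rw [mem_Ball_iff, ContinuousLinearEquiv.symm_apply_apply]
      simpa using hv
    have key : ∀ k, ∃ (d : Fin N → ℂ) (g g₀ : V (n + 1) → ℂ), (∀ i, ‖d i‖ ≤ 4 / δ) ∧
        DifferentiableOn ℂ g (ball 0 1) ∧ DifferentiableOn ℂ g₀ (ball 0 1) ∧
        (∀ z ∈ ball (0 : V (n + 1)) 1, ‖g z‖ ≤ C) ∧
        (∀ z ∈ ball (0 : V (n + 1)) 1, ‖g₀ z‖ ≤ C) ∧
        ∀ z ∈ ball (0 : V (n + 1)) 1, ∑ i, c i k * d i +
          ((1 - inner ℂ q z) / 2 * g z + G k z * g₀ z) = 1 := by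
      intro k
      by_cases hk : δ / 4 ≤ ∑ i, ‖c i k‖
      · refine ⟨dual (fun i => c i k), fun _ => 0, fun _ => 0, fun i => ?_,
          differentiableOn_const _, differentiableOn_const _, fun z _ => by simpa using hC0,
          fun z _ => by simpa using hC0, fun z _ => ?_⟩
        · have := dual_le (fun i => c i k) (η := δ / 4) (by positivity) hk i
          rwa [one_div_div] at this
        · rw [dual_sum (fun i => c i k) (η := δ / 4) (by positivity) hk]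
          simp
      · push Not at hk
        obtain ⟨g, g₀, hg, hg₀, hgb, hg₀b, hbez⟩ := hC n ψ hψ (fun _ x => (1 - x) / 2)
          (fun _ => (by fun_prop : Differentiable ℂ fun x : ℂ => (1 - x) / 2).differentiableOn)
          (fun _ x hx => by
            rw [mem_ball_zero_iff] at hx
            rw [norm_div, Complex.norm_ofNat, div_le_one (by norm_num)]
            calc ‖1 - x‖ ≤ ‖(1:ℂ)‖ + ‖x‖ := norm_sub_le _ _
              _ ≤ 2 := by rw [norm_one]; linarith)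
          (fun z => G k ((ee (n + 1)).symm z))
          ((hG k).comp (ee (n + 1)).symm.differentiable.differentiableOn hmaps)
          (fun z hz => hGb k _ (hmaps hz))
          (fun z hz hsmall => by
            obtain ⟨v, hv⟩ : ∃ v, v = (ee (n + 1)).symm z := ⟨_, rfl⟩
            have hvb : v ∈ ball (0 : V (n + 1)) 1 := by rw [hv]; exact hmaps hz
            have hv1 : ‖v‖ < 1 := by simpa using hvb
            have h4 := hsmall 0
            rw [hψ0 z, ← hv, norm_div, Complex.norm_ofNat] at h4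
            have h5 : ‖v - q‖ < ρ := by
              have h6 := inner_re_le q v hq1 hv1
              have h7 : 1 - (inner ℂ q v : ℂ).re ≤ ‖1 - (inner ℂ q v : ℂ)‖ := by
                have := Complex.re_le_norm (1 - (inner ℂ q v : ℂ))
                simpa using this
              have h8 : κ ≤ ρ ^ 2 / 4 := by rw [hκ]; exact min_le_right _ _
              have h9 : ‖v - q‖ ^ 2 < ρ ^ 2 := by linarith
              exact lt_of_pow_lt_pow_left₀ 2 hρ0.le h9
            have h10 := hc k v hvb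
            have h11 : ∑ i, ‖F k i v‖ ≤ ∑ i, (‖c i k‖ + ε) := by
              refine Finset.sum_le_sum fun i _ => ?_
              have h12 := hcF i k v hvb h5
              have h13 := norm_add_le (F k i v - c i k) (c i k)
              rw [sub_add_cancel] at h13
              linarith
            rw [Finset.sum_add_distrib, Finset.sum_const, Finset.card_univ, Fintype.card_fin,
              nsmul_eq_mul] at h11
            rw [← hv]
            have h14 : κ ≤ δ / 2 := by rw [hκ]; exact min_le_left _ _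
            linarith)
        refine ⟨0, fun v => g 0 (ee (n + 1) v), fun v => g₀ (ee (n + 1) v), fun i => ?_,
          (hg 0).comp (ee (n + 1)).differentiable.differentiableOn hmaps2,
          hg₀.comp (ee (n + 1)).differentiable.differentiableOn hmaps2,
          fun z hz => hgb 0 _ (hmaps2 hz), fun z hz => hg₀b _ (hmaps2 hz), fun z hz => ?_⟩
        · simp only [Pi.zero_apply, norm_zero]
          positivity
        · have h4 := hbez (ee (n + 1) z) (hmaps2 hz)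
          rw [Fin.sum_univ_one, hψ0, ContinuousLinearEquiv.symm_apply_apply] at h4
          rw [h4]
          simp
    choose d g g₀ hd hg hg₀ hgb hg₀b hid using key
    have hone : ∑ i, (con (c i) (hcb i) : Hs (n + 1)) * con (fun k => d k i)
          (fun k => hd k i) + ((1 - cs (Lw q)) * Cs (1 / 2) * mks (f := g) hg (C := C) hgb +
          mks (f := G) hG (C := 1) hGb * mks (f := g₀) hg₀ (C := C) hg₀b) = 1 := by
      apply Hs.ext
      rintro ⟨k, z⟩
      refine Eq.trans ?_ (hid k z z.2)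
      rw [Hs.add_apply, Hs.sum_apply]
      refine congrArg₂ (· + ·) rfl ?_
      change (1 - inner ℂ q (z : V (n + 1))) * (1 / 2) * g k z + G k z * g₀ k z = _
      ring
    have h4 := congrArg χ hone
    have h5 : χ (Cs (1 / 2) : Hs (n + 1)) = 1 / 2 := χ.commutes _
    rw [map_add, map_add, map_mul, map_mul, map_mul, map_sub, map_one, hχq, sub_self, zero_mul,
      zero_mul, zero_add, h2, zero_mul, add_zero, map_sum] at h4
    have h6 : ‖∑ i, χ ((con (c i) (hcb i) : Hs (n + 1)) * con (fun k => d k i)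
          (fun k => hd k i))‖ ≤ N * (ε * (4 / δ)) := by
      refine (norm_sum_le _ _).trans ?_
      have h7 : ∀ i ∈ Finset.univ, ‖χ ((con (c i) (hcb i) : Hs (n + 1)) *
          con (fun k => d k i) (fun k => hd k i))‖ ≤ ε * (4 / δ) := by
        intro i _
        rw [map_mul, norm_mul]
        exact mul_le_mul (hχc' i) (hχ _ _ fun x => hd x.1 i) (norm_nonneg _) hε0.le
      refine (Finset.sum_le_sum h7).trans (le_of_eq ?_)
      rw [Finset.sum_const, Finset.card_univ, Fintype.card_fin, nsmul_eq_mul]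
    rw [h4, norm_one] at h6
    have h8 : (N : ℝ) * (ε * (4 / δ)) = (N * ε) * (4 / δ) := by ring
    rw [h8] at h6
    have h9 : (N * ε) * (4 / δ) ≤ δ / 8 * (4 / δ) :=
      mul_le_mul_of_nonneg_right hNε (by positivity)
    have h10 : δ / 8 * (4 / δ) = 1 / 2 := by field_simp; norm_num
    rw [h10] at h9
    linarith

theorem main : Pool.Agent.W732.Cor.S_loc := by
  classical
  intro m p hp N δ hδ r hr
  obtain ⟨n, rfl⟩ : ∃ n, m = n + 1 := by
    rcases m with _ | n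
    · exfalso
      have : p = 0 := Subsingleton.elim _ _
      rw [this, norm_zero] at hp
      exact zero_ne_one hp
    · exact ⟨n, rfl⟩
  by_contra hcon
  push Not at hcon
  choose F G hF hG hFb hGb hc heq hbad using fun k : ℕ => hcon (k : ℝ)
  obtain ⟨FF, hFF⟩ : ∃ FF : Fin N → Hs (n + 1), FF = fun i => mks (f := fun k => F k i)
    (fun k => hF k i) (C := 1) (fun k => hFb k i) := ⟨_, rfl⟩
  obtain ⟨GG, hGG⟩ : ∃ GG : Hs (n + 1), GG = mks (f := G) hG (C := 1) hGb := ⟨_, rfl⟩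
  have hFFz : ∀ i k (z : Bt (n + 1)), (FF i).1 (k, z) = F k i z := fun i k z => by rw [hFF]; rfl
  have hGGz : ∀ k (z : Bt (n + 1)), GG.1 (k, z) = G k z := fun k z => by rw [hGG]; rfl
  have hZz : ∀ k (z : Bt (n + 1)), (cs (Lw p) : Hs (n + 1)).1 (k, z) = inner ℂ p (z : V (n + 1)) :=
    fun k z => rfl
  obtain ⟨H, hH⟩ := approx_G (Hs (n + 1)) (X := univ) ⟨(0, ⟨0, by simp⟩), trivial⟩
    (Fin.cons GG (Fin.cons (cs (Lw p)) FF)) (fun χ hχ => by
      by_contra hno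
      push Not at hno
      refine no_char p hδ r hr F G hF hG hFb hGb hc heq χ (fun G C h => hχ G C fun z _ => h z)
        (fun i => ?_) ?_ ?_
      · have := hno i.succ.succ
        rw [Fin.cons_succ, Fin.cons_succ, hFF] at this
        exact this
      · have := hno 0
        rw [Fin.cons_zero, hGG] at this
        exact this
      · have := hno (Fin.succ 0)
        rw [Fin.cons_succ, Fin.cons_zero] at this
        exact this) (ε := 1 / 2) (by norm_num)
  choose h hh hhH using fun j => (H j).2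
  -- the denominator
  obtain ⟨u, hu⟩ : ∃ u : ℕ → V (n + 1) → ℂ, u = fun k z => G k z * h 0 k z +
    (inner ℂ p z * h (Fin.succ 0) k z + ∑ i : Fin N, F k i z * h i.succ.succ k z) := ⟨_, rfl⟩
  have hLd : DifferentiableOn ℂ (fun v : V (n + 1) => (inner ℂ p v : ℂ)) (ball 0 1) :=
    (innerSL ℂ p).differentiable.differentiableOn
  have hud : ∀ k, DifferentiableOn ℂ (u k) (ball 0 1) := by
    intro k
    rw [hu]
    exact ((hG k).fun_mul (hh 0 k)).fun_add ((hLd.fun_mul (hh _ k)).fun_add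
      (DifferentiableOn.fun_sum fun i _ => (hF k i).fun_mul (hh _ k)))
  have hu1 : ∀ k, ∀ z ∈ ball (0 : V (n + 1)) 1, 1 / 2 ≤ ‖u k z‖ := by
    intro k z hz
    have h1 := hH (k, ⟨z, hz⟩) trivial
    rw [Fin.sum_univ_succ, Fin.sum_univ_succ] at h1
    simp only [Fin.cons_zero, Fin.cons_succ] at h1
    rw [hGGz, hZz, show (H 0).1 (k, ⟨z, hz⟩) = h 0 k z from hhH 0 k ⟨z, hz⟩,
      show (H (Fin.succ 0)).1 (k, ⟨z, hz⟩) = h (Fin.succ 0) k z from hhH _ k ⟨z, hz⟩] at h1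
    have h2 : ∑ i : Fin N, (FF i).1 (k, ⟨z, hz⟩) * (H i.succ.succ).1 (k, ⟨z, hz⟩) =
        ∑ i : Fin N, F k i z * h i.succ.succ k z := by
      refine Finset.sum_congr rfl fun i _ => ?_
      rw [hFFz, show (H i.succ.succ).1 (k, ⟨z, hz⟩) = h i.succ.succ k z from hhH _ k ⟨z, hz⟩]
    rw [h2] at h1
    have h3 : ‖u k z - 1‖ ≤ 1 / 2 := by
      rw [hu]
      exact h1
    have h4 := norm_sub_norm_le (1 : ℂ) (u k z)
    rw [norm_one, norm_sub_rev] at h4
    linarith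
  have hu0 : ∀ k, ∀ z ∈ ball (0 : V (n + 1)) 1, u k z ≠ 0 := by
    intro k z hz h0
    have := hu1 k z hz
    rw [h0, norm_zero] at this
    norm_num at this
  obtain ⟨k, hk⟩ := exists_nat_ge (2 * ∑ j, ‖H j‖)
  have hbd : ∀ j, ∀ z ∈ ball (0 : V (n + 1)) 1, ‖h j k z / u k z‖ ≤ k := by
    intro j z hz
    have h3 := (H j).1.norm_coe_le_norm (k, ⟨z, hz⟩)
    rw [show (H j).1 (k, ⟨z, hz⟩) = h j k z from hhH j k ⟨z, hz⟩] at h3
    have h4 := Finset.single_le_sum (f := fun j => ‖H j‖) (fun j _ => norm_nonneg _)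
      (Finset.mem_univ j)
    have h5 := hu1 k z hz
    rw [norm_div, div_le_iff₀ (by linarith)]
    have h6 : ‖h j k z‖ ≤ ∑ j, ‖H j‖ := h3.trans h4
    have h7 : (0 : ℝ) ≤ k := Nat.cast_nonneg k
    nlinarith
  have hdiv : ∀ j, DifferentiableOn ℂ (fun z => h j k z / u k z) (ball 0 1) := fun j => by
    simp only [div_eq_mul_inv]
    exact (hh j k).fun_mul ((hud k).inv (hu0 k))
  obtain ⟨z, hz, hne⟩ := hbad k (fun i z => h i.succ.succ k z / u k z)
    (fun z => h 0 k z / u k z) (fun z => h (Fin.succ 0) k z / u k z)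
    (fun i => hdiv _) (hdiv _) (hdiv _) (fun i => hbd _) (hbd _) (hbd _)
  apply hne
  have h1 : ∑ i, F k i z * (h i.succ.succ k z / u k z) + G k z * (h 0 k z / u k z) +
      inner ℂ p z * (h (Fin.succ 0) k z / u k z) = u k z / u k z := by
    have h2 : ∀ i : Fin N, F k i z * (h i.succ.succ k z / u k z) =
        F k i z * h i.succ.succ k z / u k z := fun i => by ring
    rw [Finset.sum_congr rfl fun i _ => h2 i, ← Finset.sum_div]
    have h3 : u k z = G k z * h 0 k z +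
      (inner ℂ p z * h (Fin.succ 0) k z + ∑ i : Fin N, F k i z * h i.succ.succ k z) := by rw [hu]
    have h4 : (∑ i : Fin N, F k i z * h i.succ.succ k z) / u k z + G k z * (h 0 k z / u k z) +
        inner ℂ p z * (h (Fin.succ 0) k z / u k z) = (G k z * h 0 k z +
      (inner ℂ p z * h (Fin.succ 0) k z + ∑ i : Fin N, F k i z * h i.succ.succ k z)) / u k z := by
      ring
    rw [h4, ← h3]
  rw [h1, div_self (hu0 k z hz)]

end Pool.Agent.W902.Cor
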